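import Pool.Agent.U369.TF.Defs

/-!
# Toads and Frogs: certificates for Left's strategy in `G - 1`

A position is coded by the number whose base-4 digits are the squares (0 empty, 1 toad, 2 frog),
followed by the digit 3. A certificate consists of two search trees of codes: positions `w` such
that Left wins `w` (tree `t0`) or `w - 1` (tree `t1`) if Right moves first, with Left's replies.
-/

set_option autoImplicit false

namespace Pool.Agent.U369.TF

open Cell

/-- the digit of a square -/
def dig : Cell → ℕ
  | E => 0
  | T => 1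
  | F => 2

/-- the code of a position -/
def enc : List Cell → ℕ
  | [] => 3
  | c :: w => dig c + 4 * enc w

/-- binary search trees with keys and hints -/
inductive Tr : Type
  | leaf : Tr
  | node (l : Tr) (k h : ℕ) (r : Tr) : Tr

namespace Tr

/-- membership in a search tree -/
noncomputable def mem (x : ℕ) (t : Tr) : Bool :=
  Tr.rec false (fun _ k _ _ ihl ihr => bif Nat.blt x k then ihl else bif Nat.beq x k then true else ihr) t

/-- all entries satisfy `f` -/
noncomputable def all (f : ℕ → ℕ → Bool) (t : Tr) : Bool :=
  Tr.rec true (fun _ k h _ ihl ihr => bif ihl then bif f k h then ihr else false else false) t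

theorem all_mem {f : ℕ → ℕ → Bool} {x : ℕ} : ∀ {t : Tr}, all f t = true → mem x t = true →
    ∃ h, f x h = true
  | leaf, _, h => by simp [mem] at h
  | node l k h r, h1, h2 => by
    have e1 : all f (node l k h r) = bif all f l then bif f k h then all f r else false else false :=
      rfl
    have e2 : mem x (node l k h r) =
      bif Nat.blt x k then mem x l else bif Nat.beq x k then true else mem x r := rfl
    rw [e1] at h1
    rw [e2] at h2
    cases hl : all f l
    · rw [hl] at h1; simp at h1
    cases hk : f k h
    · rw [hl, hk] at h1; simp at h1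
    rw [hl, hk] at h1
    simp only [cond_true] at h1
    cases hb : Nat.blt x k
    · rw [hb, cond_false] at h2
      cases he : Nat.beq x k
      · rw [he, cond_false] at h2
        exact all_mem h1 h2
      · have : x = k := Nat.eq_of_beq_eq_true he
        subst this
        exact ⟨h, hk⟩
    · rw [hb, cond_true] at h2
      exact all_mem hl h2

theorem all_node {f : ℕ → ℕ → Bool} {l r : Tr} {k h : ℕ} (hl : all f l = true)
    (hk : f k h = true) (hr : all f r = true) : all f (node l k h r) = true := by
  have e1 : all f (node l k h r) = bif all f l then bif f k h then all f r else false else false :=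
    rfl
  rw [e1, hl, hk, hr]
  rfl

end Tr

/-- Left's reply coded by `h % 64` in the position `y` is legal and leads to an element of `t`. -/
noncomputable def reply (t : Tr) (y h : ℕ) : Bool :=
  bif Nat.beq (h % 2) 0 then
    bif Nat.beq (y / 4 ^ (h % 64 / 2) % 16) 1 then Tr.mem (y + 3 * 4 ^ (h % 64 / 2)) t else false
  else
    bif Nat.beq (y / 4 ^ (h % 64 / 2) % 64) 9 then Tr.mem (y + 15 * 4 ^ (h % 64 / 2)) t else false

/-- Left has replies to all of Right's moves on the strip with code `x` from the square `i` on. -/
noncomputable def replies (t : Tr) (x k : ℕ) : ℕ → ℕ → Bool :=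
  Nat.rec (fun _ _ => true)
    (fun _ ih i h =>
      bif Nat.beq (x / 4 ^ i % 16) 8 then
        bif reply t (x - 6 * 4 ^ i) h then ih (i + 1) (h / 64) else false
      else bif Nat.beq (x / 4 ^ i % 64) 36 then
        bif reply t (x - 30 * 4 ^ i) h then ih (i + 1) (h / 64) else false
      else ih (i + 1) h) k

theorem replies_succ (t : Tr) (x k i h : ℕ) : replies t x (k + 1) i h =
    bif Nat.beq (x / 4 ^ i % 16) 8 then
      bif reply t (x - 6 * 4 ^ i) h then replies t x k (i + 1) (h / 64) else false
    else bif Nat.beq (x / 4 ^ i % 64) 36 then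
      bif reply t (x - 30 * 4 ^ i) h then replies t x k (i + 1) (h / 64) else false
    else replies t x k (i + 1) h := rfl

/-- The check of an entry of `t0`. -/
noncomputable def check0 (t0 : Tr) (x h : ℕ) : Bool := replies t0 x 20 0 h

/-- The check of an entry of `t1`. -/
noncomputable def check1 (t0 t1 : Tr) (x h : ℕ) : Bool :=
  bif reply t0 x h then replies t1 x 20 0 (h / 64) else false

/-! ## Soundness -/

theorem enc_pos (w : List Cell) : 3 ≤ enc w := by
  induction w with
  | nil => simp [enc]
  | cons c w ih => simp only [enc]; omega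

theorem enc_append (u : List Cell) : ∃ a, a < 4 ^ u.length ∧ ∀ v, enc (u ++ v) =
    a + 4 ^ u.length * enc v := by
  induction u with
  | nil => exact ⟨0, by simp, by simp⟩
  | cons c u ih =>
    obtain ⟨a, ha, h⟩ := ih
    refine ⟨dig c + 4 * a, ?_, ?_⟩
    · have : dig c < 4 := by cases c <;> decide
      rw [List.length_cons, pow_succ]
      omega
    · intro v
      simp only [List.cons_append, enc, List.length_cons, h]
      ring

theorem div_enc (u v : List Cell) : enc (u ++ v) / 4 ^ u.length = enc v := by
  obtain ⟨a, ha, h⟩ := enc_append u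
  rw [h, Nat.add_mul_div_left _ _ (by positivity), Nat.div_eq_of_lt ha, zero_add]

/-- a window `T E` -/
theorem find_TE : ∀ (w : List Cell) (j : ℕ), enc w / 4 ^ j % 16 = 1 →
    ∃ u v, w = u ++ T :: E :: v ∧ u.length = j
  | [], 0, h => by simp [enc] at h
  | [], j + 1, h => by
    rw [show enc [] = 3 from rfl, Nat.div_eq_of_lt (by
      have : 4 ^ 1 ≤ 4 ^ (j + 1) := Nat.pow_le_pow_right (by omega) (by omega)
      omega)] at h
    omega
  | c :: w, j + 1, h => by
    have : enc (c :: w) / 4 ^ (j + 1) = enc w / 4 ^ j := by
      rw [pow_succ, mul_comm, ← Nat.div_div_eq_div_mul]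
      congr 1
      simp only [enc]
      have : dig c < 4 := by cases c <;> decide
      omega
    rw [this] at h
    obtain ⟨u, v, e, hu⟩ := find_TE w j h
    exact ⟨c :: u, v, by rw [e]; rfl, by simp [hu]⟩
  | [c], 0, h => by
    exfalso
    cases c <;> simp [enc, dig] at h
  | c :: d :: w, 0, h => by
    refine ⟨[], w, ?_, rfl⟩
    simp only [enc, pow_zero, Nat.div_one] at h
    cases c <;> cases d <;> simp only [dig] at h <;> first | rfl | omega

/-- a window `T F E` -/
theorem find_TFE : ∀ (w : List Cell) (j : ℕ), enc w / 4 ^ j % 64 = 9 →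
    ∃ u v, w = u ++ T :: F :: E :: v ∧ u.length = j
  | [], 0, h => by simp [enc] at h
  | [], j + 1, h => by
    rw [show enc [] = 3 from rfl, Nat.div_eq_of_lt (by
      have : 4 ^ 1 ≤ 4 ^ (j + 1) := Nat.pow_le_pow_right (by omega) (by omega)
      omega)] at h
    omega
  | c :: w, j + 1, h => by
    have : enc (c :: w) / 4 ^ (j + 1) = enc w / 4 ^ j := by
      rw [pow_succ, mul_comm, ← Nat.div_div_eq_div_mul]
      congr 1
      simp only [enc]
      have : dig c < 4 := by cases c <;> decide
      omega
    rw [this] at h
    obtain ⟨u, v, e, hu⟩ := find_TFE w j h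
    exact ⟨c :: u, v, by rw [e]; rfl, by simp [hu]⟩
  | [c], 0, h => by
    exfalso
    cases c <;> simp [enc, dig] at h
  | [c, d], 0, h => by
    exfalso
    cases c <;> cases d <;> simp [enc, dig] at h
  | c :: d :: e :: w, 0, h => by
    refine ⟨[], w, ?_, rfl⟩
    simp only [enc, pow_zero, Nat.div_one] at h
    cases c <;> cases d <;> cases e <;> simp only [dig] at h <;> first | rfl | omega

/-- A reply found by the check. -/
theorem reply_sound {t : Tr} {w : List Cell} {h : ℕ} (hr : reply t (enc w) h = true) :
    ∃ w', LMove w w' ∧ Tr.mem (enc w') t = true := by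
  unfold reply at hr
  cases h2 : Nat.beq (h % 2) 0
  · rw [h2, cond_false] at hr
    cases h3 : Nat.beq (enc w / 4 ^ (h % 64 / 2) % 64) 9
    · rw [h3, cond_false] at hr; exact absurd hr (by simp)
    rw [h3, cond_true] at hr
    obtain ⟨u, v, e, hu⟩ := find_TFE w _ (Nat.eq_of_beq_eq_true h3)
    refine ⟨u ++ E :: F :: T :: v, Or.inr ⟨u, v, e, rfl⟩, ?_⟩
    rw [← hr]
    congr 1
    rw [← hu, e]
    obtain ⟨a, -, ha⟩ := enc_append u
    rw [ha, ha]
    simp only [enc, dig]
    ring
  · rw [h2, cond_true] at hr
    cases h3 : Nat.beq (enc w / 4 ^ (h % 64 / 2) % 16) 1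
    · rw [h3, cond_false] at hr; exact absurd hr (by simp)
    rw [h3, cond_true] at hr
    obtain ⟨u, v, e, hu⟩ := find_TE w _ (Nat.eq_of_beq_eq_true h3)
    refine ⟨u ++ E :: T :: v, Or.inl ⟨u, v, e, rfl⟩, ?_⟩
    rw [← hr]
    congr 1
    rw [← hu, e]
    obtain ⟨a, -, ha⟩ := enc_append u
    rw [ha, ha]
    simp only [enc, dig]
    ring

theorem replies_sound {t : Tr} {x : ℕ} : ∀ (k i h : ℕ), replies t x k i h = true →
    ∀ j, i ≤ j → j < i + k →
      (x / 4 ^ j % 16 = 8 → ∃ h', reply t (x - 6 * 4 ^ j) h' = true) ∧
      (x / 4 ^ j % 64 = 36 → ∃ h', reply t (x - 30 * 4 ^ j) h' = true)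
  | 0, i, h, _, j, h1, h2 => by omega
  | k + 1, i, h, hr, j, h1, h2 => by
    rw [replies_succ] at hr
    cases a : Nat.beq (x / 4 ^ i % 16) 8
    · have a' : x / 4 ^ i % 16 ≠ 8 := fun e => by rw [e] at a; exact absurd a (by decide)
      rw [a, cond_false] at hr
      cases b : Nat.beq (x / 4 ^ i % 64) 36
      · have b' : x / 4 ^ i % 64 ≠ 36 := fun e => by rw [e] at b; exact absurd b (by decide)
        rw [b, cond_false] at hr
        rcases Nat.eq_or_lt_of_le h1 with e | h1
        · subst e
          exact ⟨fun e => absurd e a', fun e => absurd e b'⟩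
        · exact replies_sound k (i + 1) _ hr j h1 (by omega)
      · rw [b, cond_true] at hr
        cases c : reply t (x - 30 * 4 ^ i) h
        · rw [c] at hr; simp at hr
        rw [c, cond_true] at hr
        rcases Nat.eq_or_lt_of_le h1 with e | h1
        · subst e
          exact ⟨fun e => absurd e a', fun _ => ⟨h, c⟩⟩
        · exact replies_sound k (i + 1) _ hr j h1 (by omega)
    · have a' : x / 4 ^ i % 16 = 8 := Nat.eq_of_beq_eq_true a
      rw [a, cond_true] at hr
      cases c : reply t (x - 6 * 4 ^ i) h
      · rw [c] at hr; simp at hr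
      rw [c, cond_true] at hr
      rcases Nat.eq_or_lt_of_le h1 with e | h1
      · subst e
        exact ⟨fun _ => ⟨h, c⟩, fun e => by omega⟩
      · exact replies_sound k (i + 1) _ hr j h1 (by omega)

/-- If the check of `w` succeeds, Left has a reply to each of Right's moves on the strip. -/
theorem answer {t : Tr} {w w' : List Cell} {h : ℕ} (hw : w.length = 20)
    (hr : replies t (enc w) 20 0 h = true) (hm : RMove w w') :
    ∃ w'', LMove w' w'' ∧ Tr.mem (enc w'') t = true := by
  rcases hm with ⟨u, v, e, e'⟩ | ⟨u, v, e, e'⟩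
  · have hu : u.length < 20 := by
      rw [← hw, e]; simp
    have hd := div_enc u (E :: F :: v)
    obtain ⟨a, -, ha⟩ := enc_append u
    obtain ⟨h', hh⟩ := (replies_sound 20 0 h hr u.length (by omega) (by omega)).1 (by
      rw [e, hd]; simp only [enc, dig]; omega)
    have : enc w - 6 * 4 ^ u.length = enc w' := by
      rw [e, e', ha, ha]
      simp only [enc, dig]
      have : 4 ^ u.length * (0 + 4 * (2 + 4 * enc v)) = 4 ^ u.length * (2 + 4 * (0 + 4 * enc v)) +
        6 * 4 ^ u.length := by ring
      omega
    rw [this] at hh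
    exact reply_sound hh
  · have hu : u.length < 20 := by
      rw [← hw, e]; simp
    have hd := div_enc u (E :: T :: F :: v)
    obtain ⟨a, -, ha⟩ := enc_append u
    obtain ⟨h', hh⟩ := (replies_sound 20 0 h hr u.length (by omega) (by omega)).2 (by
      rw [e, hd]; simp only [enc, dig]; omega)
    have : enc w - 30 * 4 ^ u.length = enc w' := by
      rw [e, e', ha, ha]
      simp only [enc, dig]
      have : 4 ^ u.length * (0 + 4 * (1 + 4 * (2 + 4 * enc v))) =
        4 ^ u.length * (2 + 4 * (1 + 4 * (0 + 4 * enc v))) + 30 * 4 ^ u.length := by ring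
      omega
    rw [this] at hh
    exact reply_sound hh

theorem length_left {w w' : List Cell} (h : LMove w w') : w'.length = w.length := by
  rcases h with ⟨u, v, rfl, rfl⟩ | ⟨u, v, rfl, rfl⟩ <;> simp

theorem length_right {w w' : List Cell} (h : RMove w w') : w'.length = w.length := by
  rcases h with ⟨u, v, rfl, rfl⟩ | ⟨u, v, rfl, rfl⟩ <;> simp

open Game

theorem game_eq (w : List Cell) : game w = Game.mk {w' // LMove w w'} {w' // RMove w w'}
    (fun w' => game w'.1) (fun w' => game w'.1) := by
  rw [game]

/-- Left wins `w` moving second, for the entries of `t0`. -/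
theorem zero_sound {t0 : Tr} (h0 : Tr.all (check0 t0) t0 = true) : ∀ (n : ℕ) (w : List Cell),
    measure 0 w = n → w.length = 20 → Tr.mem (enc w) t0 = true →
      ¬ FirstWins false (add (game w) (neg zero)) := by
  intro n
  induction n using Nat.strong_induction_on with
  | _ n ih =>
    intro w hn hw hm
    obtain ⟨h, hh⟩ := Tr.all_mem h0 hm
    rw [game_eq, zero, neg, add_mk, FirstWins]
    rintro ⟨j, hj⟩
    rcases j with ⟨w', hw'⟩ | j
    · apply hj
      obtain ⟨w'', h1, h2⟩ := answer hw hh hw'
      rw [Sum.elim_inl, game_eq, add_mk, FirstWins]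
      refine ⟨Sum.inl ⟨w'', h1⟩, ?_⟩
      have h3 := measure_right hw'
      have h4 := measure_left h1
      exact ih _ (by omega) w'' rfl (by rw [length_left h1, length_right hw', hw]) h2
    · exact j.elim

/-- Left wins `w - 1` moving second, for the entries of `t1`. -/
theorem one_sound {t0 t1 : Tr} (h0 : Tr.all (check0 t0) t0 = true)
    (h1 : Tr.all (check1 t0 t1) t1 = true) : ∀ (n : ℕ) (w : List Cell),
    measure 0 w = n → w.length = 20 → Tr.mem (enc w) t1 = true →
      ¬ FirstWins false (add (game w) (neg one)) := by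
  intro n
  induction n using Nat.strong_induction_on with
  | _ n ih =>
    intro w hn hw hm
    obtain ⟨h, hh⟩ := Tr.all_mem h1 hm
    unfold check1 at hh
    cases hc : reply t0 (enc w) h
    · rw [hc] at hh; simp at hh
    rw [hc, cond_true] at hh
    rw [game_eq, one, neg, add_mk, FirstWins]
    rintro ⟨j, hj⟩
    rcases j with ⟨w', hw'⟩ | j
    · apply hj
      obtain ⟨w'', h1, h2⟩ := answer hw hh hw'
      rw [Sum.elim_inl, game_eq, add_mk, FirstWins]
      refine ⟨Sum.inl ⟨w'', h1⟩, ?_⟩
      have h3 := measure_right hw'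
      have h4 := measure_left h1
      exact ih _ (by omega) w'' rfl (by rw [length_left h1, length_right hw', hw]) h2
    · apply hj
      obtain ⟨w', h3, h4⟩ := reply_sound hc
      rw [Sum.elim_inr, ← game_eq, game_eq w]
      have e : ∀ L R : Type, ∀ l : L → Game, ∀ r : R → Game, ∀ i : L,
          ¬ FirstWins false (add (l i) (neg zero)) →
            FirstWins true (add (Game.mk L R l r) (neg zero)) := by
        intro L R l r i hi
        rw [zero, neg, add_mk, FirstWins]
        exact ⟨Sum.inl i, hi⟩
      refine e _ _ _ _ ⟨w', h3⟩ ?_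
      exact zero_sound h0 _ w' rfl (by rw [length_left h3, hw]) h4

end Pool.Agent.U369.TF
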