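import Pool.Agent.U369.TF.Top0

set_option autoImplicit false
set_option linter.all false

namespace Pool.Agent.U369.TF

theorem k0_0 : Tr.all (check0 t0) c0_0 = true := by decide +kernel

theorem k0_1 : Tr.all (check0 t0) c0_1 = true := by decide +kernel

theorem k0_2 : Tr.all (check0 t0) c0_2 = true := by decide +kernel

theorem k0_3 : Tr.all (check0 t0) c0_3 = true := by decide +kernel

theorem k0_4 : Tr.all (check0 t0) c0_4 = true := by decide +kernel

theorem k0_5 : Tr.all (check0 t0) c0_5 = true := by decide +kernel

theorem k0_6 : Tr.all (check0 t0) c0_6 = true := by decide +kernel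

theorem k0_7 : Tr.all (check0 t0) c0_7 = true := by decide +kernel

theorem k0_8 : Tr.all (check0 t0) c0_8 = true := by decide +kernel

theorem k0_9 : Tr.all (check0 t0) c0_9 = true := by decide +kernel

theorem k0_10 : Tr.all (check0 t0) c0_10 = true := by decide +kernel

theorem k0_11 : Tr.all (check0 t0) c0_11 = true := by decide +kernel

theorem k0_12 : Tr.all (check0 t0) c0_12 = true := by decide +kernel

theorem k0_13 : Tr.all (check0 t0) c0_13 = true := by decide +kernel

theorem k0_14 : Tr.all (check0 t0) c0_14 = true := by decide +kernel

theorem k0_15 : Tr.all (check0 t0) c0_15 = true := by decide +kernel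

theorem k0_16 : Tr.all (check0 t0) c0_16 = true := by decide +kernel

theorem k0_17 : Tr.all (check0 t0) c0_17 = true := by decide +kernel

theorem k0_18 : Tr.all (check0 t0) c0_18 = true := by decide +kernel

theorem k0_19 : Tr.all (check0 t0) c0_19 = true := by decide +kernel

theorem k0_20 : Tr.all (check0 t0) c0_20 = true := by decide +kernel

theorem k0_21 : Tr.all (check0 t0) c0_21 = true := by decide +kernel

theorem k0_22 : Tr.all (check0 t0) c0_22 = true := by decide +kernel

theorem k0_23 : Tr.all (check0 t0) c0_23 = true := by decide +kernel

end Pool.Agent.U369.TF
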