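import Pool.Agent.U369.TF.Top0

set_option autoImplicit false
set_option linter.all false

namespace Pool.Agent.U369.TF

theorem k0_24 : Tr.all (check0 t0) c0_24 = true := by decide +kernel

theorem k0_25 : Tr.all (check0 t0) c0_25 = true := by decide +kernel

theorem k0_26 : Tr.all (check0 t0) c0_26 = true := by decide +kernel

theorem k0_27 : Tr.all (check0 t0) c0_27 = true := by decide +kernel

theorem k0_28 : Tr.all (check0 t0) c0_28 = true := by decide +kernel

theorem k0_29 : Tr.all (check0 t0) c0_29 = true := by decide +kernel

theorem k0_30 : Tr.all (check0 t0) c0_30 = true := by decide +kernel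

theorem k0_31 : Tr.all (check0 t0) c0_31 = true := by decide +kernel

theorem k0_32 : Tr.all (check0 t0) c0_32 = true := by decide +kernel

theorem k0_33 : Tr.all (check0 t0) c0_33 = true := by decide +kernel

theorem k0_34 : Tr.all (check0 t0) c0_34 = true := by decide +kernel

theorem k0_35 : Tr.all (check0 t0) c0_35 = true := by decide +kernel

theorem k0_36 : Tr.all (check0 t0) c0_36 = true := by decide +kernel

theorem k0_37 : Tr.all (check0 t0) c0_37 = true := by decide +kernel

theorem k0_38 : Tr.all (check0 t0) c0_38 = true := by decide +kernel

theorem k0_39 : Tr.all (check0 t0) c0_39 = true := by decide +kernel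

theorem k0_40 : Tr.all (check0 t0) c0_40 = true := by decide +kernel

theorem k0_41 : Tr.all (check0 t0) c0_41 = true := by decide +kernel

theorem k0_42 : Tr.all (check0 t0) c0_42 = true := by decide +kernel

theorem k0_43 : Tr.all (check0 t0) c0_43 = true := by decide +kernel

theorem k0_44 : Tr.all (check0 t0) c0_44 = true := by decide +kernel

theorem k0_45 : Tr.all (check0 t0) c0_45 = true := by decide +kernel

theorem k0_46 : Tr.all (check0 t0) c0_46 = true := by decide +kernel

theorem k0_47 : Tr.all (check0 t0) c0_47 = true := by decide +kernel

end Pool.Agent.U369.TF
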