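import Pool.Agent.U369.TF.Top0

set_option autoImplicit false
set_option linter.all false

namespace Pool.Agent.U369.TF

theorem k0_48 : Tr.all (check0 t0) c0_48 = true := by decide +kernel

theorem k0_49 : Tr.all (check0 t0) c0_49 = true := by decide +kernel

theorem k0_50 : Tr.all (check0 t0) c0_50 = true := by decide +kernel

theorem k0_51 : Tr.all (check0 t0) c0_51 = true := by decide +kernel

theorem k0_52 : Tr.all (check0 t0) c0_52 = true := by decide +kernel

theorem k0_53 : Tr.all (check0 t0) c0_53 = true := by decide +kernel

theorem k0_54 : Tr.all (check0 t0) c0_54 = true := by decide +kernel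

theorem k0_55 : Tr.all (check0 t0) c0_55 = true := by decide +kernel

theorem k0_56 : Tr.all (check0 t0) c0_56 = true := by decide +kernel

theorem k0_57 : Tr.all (check0 t0) c0_57 = true := by decide +kernel

theorem k0_58 : Tr.all (check0 t0) c0_58 = true := by decide +kernel

theorem k0_59 : Tr.all (check0 t0) c0_59 = true := by decide +kernel

theorem k0_60 : Tr.all (check0 t0) c0_60 = true := by decide +kernel

theorem k0_61 : Tr.all (check0 t0) c0_61 = true := by decide +kernel

theorem k0_62 : Tr.all (check0 t0) c0_62 = true := by decide +kernel

theorem k0_63 : Tr.all (check0 t0) c0_63 = true := by decide +kernel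

theorem k0_64 : Tr.all (check0 t0) c0_64 = true := by decide +kernel

theorem k0_65 : Tr.all (check0 t0) c0_65 = true := by decide +kernel

theorem k0_66 : Tr.all (check0 t0) c0_66 = true := by decide +kernel

theorem k0_67 : Tr.all (check0 t0) c0_67 = true := by decide +kernel

theorem k0_68 : Tr.all (check0 t0) c0_68 = true := by decide +kernel

theorem k0_69 : Tr.all (check0 t0) c0_69 = true := by decide +kernel

theorem k0_70 : Tr.all (check0 t0) c0_70 = true := by decide +kernel

theorem k0_71 : Tr.all (check0 t0) c0_71 = true := by decide +kernel

end Pool.Agent.U369.TF
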