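import Pool.Agent.U369.TF.Top0

set_option autoImplicit false
set_option linter.all false

namespace Pool.Agent.U369.TF

theorem k0_72 : Tr.all (check0 t0) c0_72 = true := by decide +kernel

theorem k0_73 : Tr.all (check0 t0) c0_73 = true := by decide +kernel

theorem k0_74 : Tr.all (check0 t0) c0_74 = true := by decide +kernel

theorem k0_75 : Tr.all (check0 t0) c0_75 = true := by decide +kernel

theorem k0_76 : Tr.all (check0 t0) c0_76 = true := by decide +kernel

theorem k0_77 : Tr.all (check0 t0) c0_77 = true := by decide +kernel

theorem k0_78 : Tr.all (check0 t0) c0_78 = true := by decide +kernel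

theorem k0_79 : Tr.all (check0 t0) c0_79 = true := by decide +kernel

theorem k0_80 : Tr.all (check0 t0) c0_80 = true := by decide +kernel

theorem k0_81 : Tr.all (check0 t0) c0_81 = true := by decide +kernel

theorem k0_82 : Tr.all (check0 t0) c0_82 = true := by decide +kernel

theorem k0_83 : Tr.all (check0 t0) c0_83 = true := by decide +kernel

theorem k0_84 : Tr.all (check0 t0) c0_84 = true := by decide +kernel

theorem k0_85 : Tr.all (check0 t0) c0_85 = true := by decide +kernel

theorem k0_86 : Tr.all (check0 t0) c0_86 = true := by decide +kernel

theorem k0_87 : Tr.all (check0 t0) c0_87 = true := by decide +kernel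

theorem k0_88 : Tr.all (check0 t0) c0_88 = true := by decide +kernel

theorem k0_89 : Tr.all (check0 t0) c0_89 = true := by decide +kernel

theorem k0_90 : Tr.all (check0 t0) c0_90 = true := by decide +kernel

theorem k0_91 : Tr.all (check0 t0) c0_91 = true := by decide +kernel

theorem k0_92 : Tr.all (check0 t0) c0_92 = true := by decide +kernel

theorem k0_93 : Tr.all (check0 t0) c0_93 = true := by decide +kernel

theorem k0_94 : Tr.all (check0 t0) c0_94 = true := by decide +kernel

theorem k0_95 : Tr.all (check0 t0) c0_95 = true := by decide +kernel

end Pool.Agent.U369.TF
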