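import Pool.Agent.U369.TF.Top0

set_option autoImplicit false
set_option linter.all false

namespace Pool.Agent.U369.TF

theorem k0_96 : Tr.all (check0 t0) c0_96 = true := by decide +kernel

theorem k0_97 : Tr.all (check0 t0) c0_97 = true := by decide +kernel

theorem k0_98 : Tr.all (check0 t0) c0_98 = true := by decide +kernel

theorem k0_99 : Tr.all (check0 t0) c0_99 = true := by decide +kernel

theorem k0_100 : Tr.all (check0 t0) c0_100 = true := by decide +kernel

theorem k0_101 : Tr.all (check0 t0) c0_101 = true := by decide +kernel

theorem k0_102 : Tr.all (check0 t0) c0_102 = true := by decide +kernel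

theorem k0_103 : Tr.all (check0 t0) c0_103 = true := by decide +kernel

theorem k0_104 : Tr.all (check0 t0) c0_104 = true := by decide +kernel

theorem k0_105 : Tr.all (check0 t0) c0_105 = true := by decide +kernel

theorem k0_106 : Tr.all (check0 t0) c0_106 = true := by decide +kernel

theorem k0_107 : Tr.all (check0 t0) c0_107 = true := by decide +kernel

theorem k0_108 : Tr.all (check0 t0) c0_108 = true := by decide +kernel

theorem k0_109 : Tr.all (check0 t0) c0_109 = true := by decide +kernel

theorem k0_110 : Tr.all (check0 t0) c0_110 = true := by decide +kernel

theorem k0_111 : Tr.all (check0 t0) c0_111 = true := by decide +kernel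

theorem k0_112 : Tr.all (check0 t0) c0_112 = true := by decide +kernel

theorem k0_113 : Tr.all (check0 t0) c0_113 = true := by decide +kernel

theorem k0_114 : Tr.all (check0 t0) c0_114 = true := by decide +kernel

theorem k0_115 : Tr.all (check0 t0) c0_115 = true := by decide +kernel

theorem k0_116 : Tr.all (check0 t0) c0_116 = true := by decide +kernel

theorem k0_117 : Tr.all (check0 t0) c0_117 = true := by decide +kernel

theorem k0_118 : Tr.all (check0 t0) c0_118 = true := by decide +kernel

theorem k0_119 : Tr.all (check0 t0) c0_119 = true := by decide +kernel

end Pool.Agent.U369.TF
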