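import Pool.Agent.U369.TF.Top0

set_option autoImplicit false
set_option linter.all false

namespace Pool.Agent.U369.TF

theorem k0_120 : Tr.all (check0 t0) c0_120 = true := by decide +kernel

theorem k0_121 : Tr.all (check0 t0) c0_121 = true := by decide +kernel

theorem k0_122 : Tr.all (check0 t0) c0_122 = true := by decide +kernel

theorem k0_123 : Tr.all (check0 t0) c0_123 = true := by decide +kernel

theorem k0_124 : Tr.all (check0 t0) c0_124 = true := by decide +kernel

theorem k0_125 : Tr.all (check0 t0) c0_125 = true := by decide +kernel

theorem k0_126 : Tr.all (check0 t0) c0_126 = true := by decide +kernel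

theorem k0_127 : Tr.all (check0 t0) c0_127 = true := by decide +kernel

end Pool.Agent.U369.TF
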