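import Pool.Agent.U369.TF.Data1a
import Pool.Agent.U369.TF.Data1b
import Pool.Agent.U369.TF.Data1c

set_option autoImplicit false
set_option linter.all false

namespace Pool.Agent.U369.TF

/-- the certificate -/
def t1 : Tr :=
  (.node (.node (.node (.node (.node (.node c1_0 3309982519888 12 c1_1) 3335739753508 41098 (.node c1_2 3342182127940 130 c1_3)) 3342735836233 1926 (.node (.node c1_4 3344003563909 8706 c1_5) 3344253077908 14 (.node c1_6 3344253405505 0 c1_7))) 3344255042629 41354 (.node (.node (.node c1_8 3344257262740 658 c1_9) 3344273838673 1408 (.node c1_10 3437761938004 1934 c1_11)) 3443126190229 910 (.node (.node c1_12 3446871950629 41610 c1_13) 3447134947657 1040 (.node c1_14 3447332292937 910 c1_15)))) 3447332619796 17028 (.node (.node (.node (.node c1_16 3447334388305 57358 c1_17) 3447340666981 49548 (.node c1_18 3447403577941 1170 c1_19)) 3471043789201 256 (.node (.node c1_20 3472904688277 780 c1_21) 3473101968481 384 (.node c1_22 3473102415172 46091 c1_23))) 3473104442389 49932 (.node (.node (.node c1_24 3473156952133 25670 c1_25) 3479096550676 260 (.node c1_26 3479544342085 8578 c1_27)) 3479544858961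 37449 (.node (.node c1_28 3479552790805 2130440 c1_29) 3480170270869 1932 (.node c1_30 3480274686034 390 c1_31))))) 3480551958097 1280 (.node (.node (.node (.node (.node c1_32 3481147605589 87317 c1_33) 3481226200213 665 (.node c1_34 3851148141904 1040 c1_35)) 3857590849573 49932 (.node (.node c1_36 3859603809541 94359 c1_37) 3859649144212 1170 (.node c1_38 3859649532949 16644 c1_39))) 3859657327717 41610 (.node (.node (.node c1_40 3859720704277 33032 c1_41) 3884971004005 4244230 (.node c1_42 3885418779721 24966 c1_43)) 3885419272465 68174596 (.node (.node c1_44 3885427132741 532610 c1_45) 3891413394769 0 (.node c1_46 3891861211465 66576 c1_47)))) 3891862185241 110875 (.node (.node (.node (.node c1_48 3891932439829 16644 c1_49) 3893426676037 2130824 (.node c1_50 3893472792997 107802 c1_51)) 3986439562513 0 (.node (.node c1_52 3988453343317 1597830 c1_53) 3988498421329 49932 (.node c1_54 3988518929557 42378 c1_55))) 3994895271061 3764878 (.node (.node (.node c1_56 3994940891461 136348552 c1_57) 3995011666069 58254 (.node c1_58 3996538930453 173580554 c1_59)) 3997037822293 4792850 (.node (.node c1_60 4020710297893 520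 c1_61) 4022275675669 1065740 (.node c1_62 4022780051797 3728270 c1_63))))))

end Pool.Agent.U369.TF
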