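import Pool.Agent.U369.TF.Top0
import Pool.Agent.U369.TF.Top1

set_option autoImplicit false
set_option linter.all false

namespace Pool.Agent.U369.TF

theorem k1_0 : Tr.all (check1 t0 t1) c1_0 = true := by decide +kernel

theorem k1_1 : Tr.all (check1 t0 t1) c1_1 = true := by decide +kernel

theorem k1_2 : Tr.all (check1 t0 t1) c1_2 = true := by decide +kernel

theorem k1_3 : Tr.all (check1 t0 t1) c1_3 = true := by decide +kernel

theorem k1_4 : Tr.all (check1 t0 t1) c1_4 = true := by decide +kernel

theorem k1_5 : Tr.all (check1 t0 t1) c1_5 = true := by decide +kernel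

theorem k1_6 : Tr.all (check1 t0 t1) c1_6 = true := by decide +kernel

theorem k1_7 : Tr.all (check1 t0 t1) c1_7 = true := by decide +kernel

theorem k1_8 : Tr.all (check1 t0 t1) c1_8 = true := by decide +kernel

theorem k1_9 : Tr.all (check1 t0 t1) c1_9 = true := by decide +kernel

theorem k1_10 : Tr.all (check1 t0 t1) c1_10 = true := by decide +kernel

theorem k1_11 : Tr.all (check1 t0 t1) c1_11 = true := by decide +kernel

theorem k1_12 : Tr.all (check1 t0 t1) c1_12 = true := by decide +kernel

theorem k1_13 : Tr.all (check1 t0 t1) c1_13 = true := by decide +kernel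

theorem k1_14 : Tr.all (check1 t0 t1) c1_14 = true := by decide +kernel

theorem k1_15 : Tr.all (check1 t0 t1) c1_15 = true := by decide +kernel

theorem k1_16 : Tr.all (check1 t0 t1) c1_16 = true := by decide +kernel

theorem k1_17 : Tr.all (check1 t0 t1) c1_17 = true := by decide +kernel

theorem k1_18 : Tr.all (check1 t0 t1) c1_18 = true := by decide +kernel

theorem k1_19 : Tr.all (check1 t0 t1) c1_19 = true := by decide +kernel

theorem k1_20 : Tr.all (check1 t0 t1) c1_20 = true := by decide +kernel

theorem k1_21 : Tr.all (check1 t0 t1) c1_21 = true := by decide +kernel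

theorem k1_22 : Tr.all (check1 t0 t1) c1_22 = true := by decide +kernel

theorem k1_23 : Tr.all (check1 t0 t1) c1_23 = true := by decide +kernel

end Pool.Agent.U369.TF
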