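import Pool.Agent.U369.TF.Top0
import Pool.Agent.U369.TF.Top1

set_option autoImplicit false
set_option linter.all false

namespace Pool.Agent.U369.TF

theorem k1_24 : Tr.all (check1 t0 t1) c1_24 = true := by decide +kernel

theorem k1_25 : Tr.all (check1 t0 t1) c1_25 = true := by decide +kernel

theorem k1_26 : Tr.all (check1 t0 t1) c1_26 = true := by decide +kernel

theorem k1_27 : Tr.all (check1 t0 t1) c1_27 = true := by decide +kernel

theorem k1_28 : Tr.all (check1 t0 t1) c1_28 = true := by decide +kernel

theorem k1_29 : Tr.all (check1 t0 t1) c1_29 = true := by decide +kernel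

theorem k1_30 : Tr.all (check1 t0 t1) c1_30 = true := by decide +kernel

theorem k1_31 : Tr.all (check1 t0 t1) c1_31 = true := by decide +kernel

theorem k1_32 : Tr.all (check1 t0 t1) c1_32 = true := by decide +kernel

theorem k1_33 : Tr.all (check1 t0 t1) c1_33 = true := by decide +kernel

theorem k1_34 : Tr.all (check1 t0 t1) c1_34 = true := by decide +kernel

theorem k1_35 : Tr.all (check1 t0 t1) c1_35 = true := by decide +kernel

theorem k1_36 : Tr.all (check1 t0 t1) c1_36 = true := by decide +kernel

theorem k1_37 : Tr.all (check1 t0 t1) c1_37 = true := by decide +kernel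

theorem k1_38 : Tr.all (check1 t0 t1) c1_38 = true := by decide +kernel

theorem k1_39 : Tr.all (check1 t0 t1) c1_39 = true := by decide +kernel

theorem k1_40 : Tr.all (check1 t0 t1) c1_40 = true := by decide +kernel

theorem k1_41 : Tr.all (check1 t0 t1) c1_41 = true := by decide +kernel

theorem k1_42 : Tr.all (check1 t0 t1) c1_42 = true := by decide +kernel

theorem k1_43 : Tr.all (check1 t0 t1) c1_43 = true := by decide +kernel

theorem k1_44 : Tr.all (check1 t0 t1) c1_44 = true := by decide +kernel

theorem k1_45 : Tr.all (check1 t0 t1) c1_45 = true := by decide +kernel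

theorem k1_46 : Tr.all (check1 t0 t1) c1_46 = true := by decide +kernel

theorem k1_47 : Tr.all (check1 t0 t1) c1_47 = true := by decide +kernel

end Pool.Agent.U369.TF
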