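import Pool.Agent.U369.TF.Top0
import Pool.Agent.U369.TF.Top1

set_option autoImplicit false
set_option linter.all false

namespace Pool.Agent.U369.TF

theorem k1_48 : Tr.all (check1 t0 t1) c1_48 = true := by decide +kernel

theorem k1_49 : Tr.all (check1 t0 t1) c1_49 = true := by decide +kernel

theorem k1_50 : Tr.all (check1 t0 t1) c1_50 = true := by decide +kernel

theorem k1_51 : Tr.all (check1 t0 t1) c1_51 = true := by decide +kernel

theorem k1_52 : Tr.all (check1 t0 t1) c1_52 = true := by decide +kernel

theorem k1_53 : Tr.all (check1 t0 t1) c1_53 = true := by decide +kernel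

theorem k1_54 : Tr.all (check1 t0 t1) c1_54 = true := by decide +kernel

theorem k1_55 : Tr.all (check1 t0 t1) c1_55 = true := by decide +kernel

theorem k1_56 : Tr.all (check1 t0 t1) c1_56 = true := by decide +kernel

theorem k1_57 : Tr.all (check1 t0 t1) c1_57 = true := by decide +kernel

theorem k1_58 : Tr.all (check1 t0 t1) c1_58 = true := by decide +kernel

theorem k1_59 : Tr.all (check1 t0 t1) c1_59 = true := by decide +kernel

theorem k1_60 : Tr.all (check1 t0 t1) c1_60 = true := by decide +kernel

theorem k1_61 : Tr.all (check1 t0 t1) c1_61 = true := by decide +kernel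

theorem k1_62 : Tr.all (check1 t0 t1) c1_62 = true := by decide +kernel

theorem k1_63 : Tr.all (check1 t0 t1) c1_63 = true := by decide +kernel

end Pool.Agent.U369.TF
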