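import Mathlib

/-!
# Toads and Frogs: definitions

Games in the sense of Conway's theory (normal play), their sum and negative, the equality of games,
and the game of a Toads and Frogs position.
-/

set_option autoImplicit false

namespace Pool.Agent.U369.TF

/-- A partizan game: the set `L` of the moves of Left and the set `R` of the moves of Right, and the
game to which each of these moves leads. -/
inductive Game : Type 1
  | mk (L R : Type) (l : L → Game) (r : R → Game) : Game

namespace Game

/-- The game `0`: no moves. -/
def zero : Game := mk Empty Empty Empty.elim Empty.elim

/-- The game `1 = {0 | }`. -/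
def one : Game := mk Unit Empty (fun _ => zero) Empty.elim

/-- The game `1* = {1 | 1}`. -/
def oneStar : Game := mk Unit Unit (fun _ => one) (fun _ => one)

/-- The negative of a game: the roles of Left and Right are exchanged. -/
def neg : Game → Game
  | mk L R l r => mk R L (fun j => neg (r j)) (fun i => neg (l i))

/-- The sum of two games: a move of a player is a move of this player in one of the two components.
See `add_mk` for the recursive equation. -/
noncomputable def add (G H : Game) : Game :=
  Game.rec (motive := fun _ => Game → Game)
    (fun L R l r ihl ihr H =>
      Game.rec (motive := fun _ => Game)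
        (fun L' R' l' r' ihl' ihr' =>
          mk (L ⊕ L') (R ⊕ R') (Sum.elim (fun i => ihl i (mk L' R' l' r')) ihl')
            (Sum.elim (fun i => ihr i (mk L' R' l' r')) ihr')) H) G H

/-- The recursive equation of the sum: `G + H = {G^L + H, G + H^L | G^R + H, G + H^R}`. -/
theorem add_mk (L R L' R' : Type) (l : L → Game) (r : R → Game) (l' : L' → Game)
    (r' : R' → Game) :
    add (mk L R l r) (mk L' R' l' r') = mk (L ⊕ L') (R ⊕ R')
      (Sum.elim (fun i => add (l i) (mk L' R' l' r')) (fun j => add (mk L R l r) (l' j)))
      (Sum.elim (fun i => add (r i) (mk L' R' l' r')) (fun j => add (mk L R l r) (r' j))) :=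
  rfl

/-- `FirstWins b G`: the player `b` (`true` for Left, `false` for Right) wins `G` if he or she
moves first; a player without a move loses. -/
def FirstWins : Bool → Game → Prop
  | true, mk _ _ l _ => ∃ i, ¬ FirstWins false (l i)
  | false, mk _ _ _ r => ∃ j, ¬ FirstWins true (r j)

/-- The second player wins `G`, whoever moves first. -/
def SecondPlayerWin (G : Game) : Prop := ¬ FirstWins true G ∧ ¬ FirstWins false G

/-- Equality of games: `G = H` if `G - H` is a second-player win. -/
def Equal (G H : Game) : Prop := SecondPlayerWin (add G (neg H))

/-- `G > H`: Left wins `G - H`, whoever moves first. -/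
def Greater (G H : Game) : Prop :=
  FirstWins true (add G (neg H)) ∧ ¬ FirstWins false (add G (neg H))

end Game

/-- The content of a square: empty, a toad, or a frog. -/
inductive Cell : Type
  | E
  | T
  | F
  deriving DecidableEq

open Cell

/-- Left's moves on a strip (the squares from left to right): a toad moves one square to the right
into an empty square, or jumps rightward over exactly one frog into the empty square immediately
beyond. -/
def LMove (w w' : List Cell) : Prop :=
  (∃ u v : List Cell, w = u ++ T :: E :: v ∧ w' = u ++ E :: T :: v) ∨
    ∃ u v : List Cell, w = u ++ T :: F :: E :: v ∧ w' = u ++ E :: F :: T :: v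

/-- Right's moves: a frog moves one square to the left into an empty square, or jumps leftward over
exactly one toad into the empty square immediately beyond. -/
def RMove (w w' : List Cell) : Prop :=
  (∃ u v : List Cell, w = u ++ E :: F :: v ∧ w' = u ++ F :: E :: v) ∨
    ∃ u v : List Cell, w = u ++ E :: T :: F :: v ∧ w' = u ++ F :: T :: E :: v

/-- A measure of a position, which decreases with every move: the sum over the toads of the number
of squares to the right of the toad, and over the frogs of the number of squares to the left of the
frog (`n` counts the squares to the left of the strip `w`). -/
def measure : ℕ → List Cell → ℕ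
  | _, [] => 0
  | n, T :: w => w.length + measure (n + 1) w
  | n, F :: w => n + measure (n + 1) w
  | n, E :: w => measure (n + 1) w

theorem measure_append_lt {a b : List Cell} (hlen : a.length = b.length)
    (h : ∀ n, measure n a < measure n b) : ∀ (u : List Cell) (n : ℕ),
    measure n (u ++ a) < measure n (u ++ b)
  | [], n => h n
  | E :: u, n => by
    have := measure_append_lt hlen h u (n + 1)
    simpa [measure] using this
  | F :: u, n => by
    have := measure_append_lt hlen h u (n + 1)
    simpa [measure] using this
  | T :: u, n => by
    have := measure_append_lt hlen h u (n + 1)
    simp only [List.cons_append, measure, List.length_append, hlen]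
    omega

theorem measure_left {w w' : List Cell} (h : LMove w w') : measure 0 w' < measure 0 w := by
  rcases h with ⟨u, v, rfl, rfl⟩ | ⟨u, v, rfl, rfl⟩
  · exact measure_append_lt (by simp) (fun n => by simp only [measure, List.length_cons]; omega) u 0
  · exact measure_append_lt (by simp) (fun n => by simp only [measure, List.length_cons]; omega) u 0

theorem measure_right {w w' : List Cell} (h : RMove w w') : measure 0 w' < measure 0 w := by
  rcases h with ⟨u, v, rfl, rfl⟩ | ⟨u, v, rfl, rfl⟩
  · exact measure_append_lt (by simp) (fun n => by simp only [measure]; omega) u 0
  · exact measure_append_lt (by simp) (fun n => by simp only [measure, List.length_cons]; omega) u 0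

/-- The game of a Toads and Frogs position: Left's options are the games of the positions reached by
her moves, and similarly for Right. -/
def game (w : List Cell) : Game :=
  Game.mk {w' // LMove w w'} {w' // RMove w w'} (fun w' => game w'.1) (fun w' => game w'.1)
termination_by measure 0 w
decreasing_by
  · exact measure_left w'.2
  · exact measure_right w'.2

/-- The position `T^a □^b F^c`. -/
def start (a b c : ℕ) : List Cell :=
  List.replicate a T ++ List.replicate b E ++ List.replicate c F

end Pool.Agent.U369.TF
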