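import Pool.Agent.U369.TF.Chk0a
import Pool.Agent.U369.TF.Chk0b
import Pool.Agent.U369.TF.Chk0c
import Pool.Agent.U369.TF.Chk0d
import Pool.Agent.U369.TF.Chk0e
import Pool.Agent.U369.TF.Chk0f

set_option autoImplicit false
set_option linter.all false

namespace Pool.Agent.U369.TF

theorem all0 : Tr.all (check0 t0) t0 = true :=
  (Tr.all_node (Tr.all_node (Tr.all_node (Tr.all_node (Tr.all_node (Tr.all_node (Tr.all_node k0_0 (by decide +kernel) k0_1) (by decide +kernel) (Tr.all_node k0_2 (by decide +kernel) k0_3)) (by decide +kernel) (Tr.all_node (Tr.all_node k0_4 (by decide +kernel) k0_5) (by decide +kernel) (Tr.all_node k0_6 (by decide +kernel) k0_7))) (by decide +kernel) (Tr.all_node (Tr.all_node (Tr.all_node k0_8 (by decide +kernel) k0_9) (by decide +kernel) (Tr.all_node k0_10 (by decide +kernel) k0_11)) (by decide +kernel) (Tr.all_node (Tr.all_node k0_12 (by decide +kernel) k0_13) (by decide +kernel) (Tr.all_node k0_14 (by decide +kernel) k0_15)))) (by decide +kernel) (Tr.all_node (Tr.all_node (Tr.all_node (Tr.all_node k0_16 (by decide +kernel) k0_17) (by decide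 +kernel) (Tr.all_node k0_18 (by decide +kernel) k0_19)) (by decide +kernel) (Tr.all_node (Tr.all_node k0_20 (by decide +kernel) k0_21) (by decide +kernel) (Tr.all_node k0_22 (by decide +kernel) k0_23))) (by decide +kernel) (Tr.all_node (Tr.all_node (Tr.all_node k0_24 (by decide +kernel) k0_25) (by decide +kernel) (Tr.all_node k0_26 (by decide +kernel) k0_27)) (by decide +kernel) (Tr.all_node (Tr.all_node k0_28 (by decide +kernel) k0_29) (by decide +kernel) (Tr.all_node k0_30 (by decide +kernel) k0_31))))) (by decide +kernel) (Tr.all_node (Tr.all_node (Tr.all_node (Tr.all_node (Tr.all_node k0_32 (by decide +kernel) k0_33) (by decide +kernel) (Tr.all_node k0_34 (by decide +kernel) k0_35)) (by decide +kernel) (Tr.all_node (Tr.all_node k0_36 (by decide +kernel) k0_37) (by decide +kernel) (Tr.all_node k0_38 (by decide +kernel) k0_39))) (by decide +kernel) (Tr.all_node (Tr.all_node (Tr.all_node k0_40 (by decide +kernel) k0_41) (by decide +kernel) (Tr.all_node k0_42 (by decide +kernel) k0_43)) (by decide +kernel) (Tr.all_node (Tr.all_node k0_44 (by decide +kernel) k0_45)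 (by decide +kernel) (Tr.all_node k0_46 (by decide +kernel) k0_47)))) (by decide +kernel) (Tr.all_node (Tr.all_node (Tr.all_node (Tr.all_node k0_48 (by decide +kernel) k0_49) (by decide +kernel) (Tr.all_node k0_50 (by decide +kernel) k0_51)) (by decide +kernel) (Tr.all_node (Tr.all_node k0_52 (by decide +kernel) k0_53) (by decide +kernel) (Tr.all_node k0_54 (by decide +kernel) k0_55))) (by decide +kernel) (Tr.all_node (Tr.all_node (Tr.all_node k0_56 (by decide +kernel) k0_57) (by decide +kernel) (Tr.all_node k0_58 (by decide +kernel) k0_59)) (by decide +kernel) (Tr.all_node (Tr.all_node k0_60 (by decide +kernel) k0_61) (by decide +kernel) (Tr.all_node k0_62 (by decide +kernel) k0_63)))))) (by decide +kernel) (Tr.all_node (Tr.all_node (Tr.all_node (Tr.all_node (Tr.all_node (Tr.all_node k0_64 (by decide +kernel) k0_65) (by decide +kernel) (Tr.all_node k0_66 (by decide +kernel) k0_67)) (by decide +kernel) (Tr.all_node (Tr.all_node k0_68 (by decide +kernel) k0_69) (by decide +kernel) (Tr.all_node k0_70 (by decide +kernel) k0_71))) (by decide +kernel) (Tr.all_node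 (Tr.all_node (Tr.all_node k0_72 (by decide +kernel) k0_73) (by decide +kernel) (Tr.all_node k0_74 (by decide +kernel) k0_75)) (by decide +kernel) (Tr.all_node (Tr.all_node k0_76 (by decide +kernel) k0_77) (by decide +kernel) (Tr.all_node k0_78 (by decide +kernel) k0_79)))) (by decide +kernel) (Tr.all_node (Tr.all_node (Tr.all_node (Tr.all_node k0_80 (by decide +kernel) k0_81) (by decide +kernel) (Tr.all_node k0_82 (by decide +kernel) k0_83)) (by decide +kernel) (Tr.all_node (Tr.all_node k0_84 (by decide +kernel) k0_85) (by decide +kernel) (Tr.all_node k0_86 (by decide +kernel) k0_87))) (by decide +kernel) (Tr.all_node (Tr.all_node (Tr.all_node k0_88 (by decide +kernel) k0_89) (by decide +kernel) (Tr.all_node k0_90 (by decide +kernel) k0_91)) (by decide +kernel) (Tr.all_node (Tr.all_node k0_92 (by decide +kernel) k0_93) (by decide +kernel) (Tr.all_node k0_94 (by decide +kernel) k0_95))))) (by decide +kernel) (Tr.all_node (Tr.all_node (Tr.all_node (Tr.all_node (Tr.all_node k0_96 (by decide +kernel) k0_97) (by decide +kernel) (Tr.all_node k0_98 (by decide +kernel)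 k0_99)) (by decide +kernel) (Tr.all_node (Tr.all_node k0_100 (by decide +kernel) k0_101) (by decide +kernel) (Tr.all_node k0_102 (by decide +kernel) k0_103))) (by decide +kernel) (Tr.all_node (Tr.all_node (Tr.all_node k0_104 (by decide +kernel) k0_105) (by decide +kernel) (Tr.all_node k0_106 (by decide +kernel) k0_107)) (by decide +kernel) (Tr.all_node (Tr.all_node k0_108 (by decide +kernel) k0_109) (by decide +kernel) (Tr.all_node k0_110 (by decide +kernel) k0_111)))) (by decide +kernel) (Tr.all_node (Tr.all_node (Tr.all_node (Tr.all_node k0_112 (by decide +kernel) k0_113) (by decide +kernel) (Tr.all_node k0_114 (by decide +kernel) k0_115)) (by decide +kernel) (Tr.all_node (Tr.all_node k0_116 (by decide +kernel) k0_117) (by decide +kernel) (Tr.all_node k0_118 (by decide +kernel) k0_119))) (by decide +kernel) (Tr.all_node (Tr.all_node (Tr.all_node k0_120 (by decide +kernel) k0_121) (by decide +kernel) (Tr.all_node k0_122 (by decide +kernel) k0_123)) (by decide +kernel) (Tr.all_node (Tr.all_node k0_124 (by decide +kernel) k0_125) (by decide +kernel) (Tr.all_node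 k0_126 (by decide +kernel) k0_127)))))))

end Pool.Agent.U369.TF
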