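import Pool.Agent.U369.TF.Chk1a
import Pool.Agent.U369.TF.Chk1b
import Pool.Agent.U369.TF.Chk1c

set_option autoImplicit false
set_option linter.all false

namespace Pool.Agent.U369.TF

theorem all1 : Tr.all (check1 t0 t1) t1 = true :=
  (Tr.all_node (Tr.all_node (Tr.all_node (Tr.all_node (Tr.all_node (Tr.all_node k1_0 (by decide +kernel) k1_1) (by decide +kernel) (Tr.all_node k1_2 (by decide +kernel) k1_3)) (by decide +kernel) (Tr.all_node (Tr.all_node k1_4 (by decide +kernel) k1_5) (by decide +kernel) (Tr.all_node k1_6 (by decide +kernel) k1_7))) (by decide +kernel) (Tr.all_node (Tr.all_node (Tr.all_node k1_8 (by decide +kernel) k1_9) (by decide +kernel) (Tr.all_node k1_10 (by decide +kernel) k1_11)) (by decide +kernel) (Tr.all_node (Tr.all_node k1_12 (by decide +kernel) k1_13) (by decide +kernel) (Tr.all_node k1_14 (by decide +kernel) k1_15)))) (by decide +kernel) (Tr.all_node (Tr.all_node (Tr.all_node (Tr.all_node k1_16 (by decide +kernel) k1_17) (by decide +kernel) (Tr.all_node k1_18 (by decide +kernel) k1_19)) (by decide +kernel) (Tr.all_node (Tr.all_node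 k1_20 (by decide +kernel) k1_21) (by decide +kernel) (Tr.all_node k1_22 (by decide +kernel) k1_23))) (by decide +kernel) (Tr.all_node (Tr.all_node (Tr.all_node k1_24 (by decide +kernel) k1_25) (by decide +kernel) (Tr.all_node k1_26 (by decide +kernel) k1_27)) (by decide +kernel) (Tr.all_node (Tr.all_node k1_28 (by decide +kernel) k1_29) (by decide +kernel) (Tr.all_node k1_30 (by decide +kernel) k1_31))))) (by decide +kernel) (Tr.all_node (Tr.all_node (Tr.all_node (Tr.all_node (Tr.all_node k1_32 (by decide +kernel) k1_33) (by decide +kernel) (Tr.all_node k1_34 (by decide +kernel) k1_35)) (by decide +kernel) (Tr.all_node (Tr.all_node k1_36 (by decide +kernel) k1_37) (by decide +kernel) (Tr.all_node k1_38 (by decide +kernel) k1_39))) (by decide +kernel) (Tr.all_node (Tr.all_node (Tr.all_node k1_40 (by decide +kernel) k1_41) (by decide +kernel) (Tr.all_node k1_42 (by decide +kernel) k1_43)) (by decide +kernel) (Tr.all_node (Tr.all_node k1_44 (by decide +kernel) k1_45) (by decide +kernel) (Tr.all_node k1_46 (by decide +kernel) k1_47)))) (by decide +kernel) (Tr.all_node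 (Tr.all_node (Tr.all_node (Tr.all_node k1_48 (by decide +kernel) k1_49) (by decide +kernel) (Tr.all_node k1_50 (by decide +kernel) k1_51)) (by decide +kernel) (Tr.all_node (Tr.all_node k1_52 (by decide +kernel) k1_53) (by decide +kernel) (Tr.all_node k1_54 (by decide +kernel) k1_55))) (by decide +kernel) (Tr.all_node (Tr.all_node (Tr.all_node k1_56 (by decide +kernel) k1_57) (by decide +kernel) (Tr.all_node k1_58 (by decide +kernel) k1_59)) (by decide +kernel) (Tr.all_node (Tr.all_node k1_60 (by decide +kernel) k1_61) (by decide +kernel) (Tr.all_node k1_62 (by decide +kernel) k1_63))))))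

end Pool.Agent.U369.TF
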