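import Pool.Agent.U369.TF.Check

/-!
# Toads and Frogs: first moves of Left in `G - H`
-/

set_option autoImplicit false

namespace Pool.Agent.U369.TF

open Game

/-- Left starts with a move on the strip. -/
theorem first_strip {w w' : List Cell} (h : LMove w w') (G : Game)
    (H : ¬ FirstWins false (add (game w') (neg G))) : FirstWins true (add (game w) (neg G)) := by
  cases G with
  | mk L R l r =>
    rw [neg] at H ⊢
    rw [game_eq w, add_mk, FirstWins]
    exact ⟨Sum.inl ⟨w', h⟩, H⟩

/-- Left starts in `G - 1*` with the move from `-1*` to `-1`. -/
theorem first_star (G : Game) (H : ¬ FirstWins false (add G (neg one))) :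
    FirstWins true (add G (neg oneStar)) := by
  cases G with
  | mk L R l r =>
    rw [oneStar, neg, add_mk, FirstWins]
    exact ⟨Sum.inr (), H⟩

end Pool.Agent.U369.TF
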