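import Pool.Agent.U369.TF.Fin0
import Pool.Agent.U369.TF.Fin1
import Pool.Agent.U369.TF.Util

/-!
# Toads and Frogs: the two positions of the certificate that are needed
-/

set_option autoImplicit false

namespace Pool.Agent.U369.TF

open Game Cell

theorem mem_start : Tr.mem (enc (start 7 7 6)) t1 = true := by decide +kernel

/-- the position after the first move of Left -/
def next : List Cell := [T, T, T, T, T, T] ++ E :: T :: [E, E, E, E, E, E, F, F, F, F, F, F]

theorem mem_next : Tr.mem (enc next) t1 = true := by decide +kernel

theorem length_start : (start 7 7 6).length = 20 := by decide

theorem length_next : next.length = 20 := by decide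

theorem second : ¬ FirstWins false (add (game (start 7 7 6)) (neg one)) :=
  one_sound all0 all1 _ (start 7 7 6) (Eq.refl _) length_start mem_start

theorem second_next : ¬ FirstWins false (add (game next) (neg one)) :=
  one_sound all0 all1 _ next (Eq.refl _) length_next mem_next

theorem first_move : LMove (start 7 7 6) next :=
  Or.inl ⟨[T, T, T, T, T, T], [E, E, E, E, E, E, F, F, F, F, F, F], by decide, by decide⟩

theorem first : FirstWins true (add (game (start 7 7 6)) (neg one)) :=
  first_strip first_move one second_next

end Pool.Agent.U369.TF
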